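import Pool.Agent.W715.BC.Defs

/-!
BC-TR1 (helper237), project BC (helper715): balanced star-type trees.
-/

set_option autoImplicit false

namespace Pool.Agent.W237.BC

open Pool.Agent.W715.BC

theorem no_triangle {V : Type} {T : SimpleGraph V} (hT : T.IsAcyclic) {a b c : V}
    (h1 : T.Adj a b) (h2 : T.Adj b c) (h3 : T.Adj a c) : False := by
  have hp : (SimpleGraph.Walk.cons h1 (SimpleGraph.Walk.cons h2 SimpleGraph.Walk.nil)).IsPath := by
    simp [SimpleGraph.Walk.cons_isPath_iff, h1.ne, h2.ne, h3.ne]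
  have h := hT.path_unique ⟨_, hp⟩ (SimpleGraph.Path.singleton h3)
  have h4 := congrArg (fun p : T.Path a c => p.1.length) h
  simp [SimpleGraph.Path.singleton] at h4

theorem inj_s {V : Type} (v : V) (S : Set V) : Set.InjOn (fun u => s(v, u)) S := by
  intro a _ b _ h
  have h1 : a = b ∨ v = b ∧ a = v := by simpa using h
  rcases h1 with h1 | ⟨h1, h2⟩
  · exact h1
  · exact h2.trans h1

theorem tr1 : S_TR1 := by
  intro V _ T R hT hR hbal c hc hstar v hv hvc
  classical
  have hac := hT.isAcyclic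
  have hcv : T.Adj c v := hstar v hv hvc
  set I : Set (Sym2 V) := (fun u => s(v, u)) '' {u | u ∈ R ∧ T.Adj v u} with hI
  have hIc : I.ncard = rdeg T R v := by
    rw [hI, Set.ncard_image_of_injOn (inj_s v _)]
    rfl
  constructor
  · -- lower bound
    have h1 := hbal {v} ⟨v, rfl⟩ (by rintro _ rfl; exact hv)
    have h2 : dens T {v} ≤ (rdeg T R v : ℝ) + 1 := by
      unfold dens
      rw [Set.ncard_singleton, Nat.cast_one, div_one]
      have h3 : ({e | e ∈ T.edgeSet ∧ ∃ w ∈ ({v} : Set V), w ∈ e} : Set (Sym2 V)) ⊆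
          insert s(c, v) I := by
        rintro e ⟨he, w, hw, hwe⟩
        rw [Set.mem_singleton_iff] at hw
        subst hw
        obtain ⟨u, rfl⟩ := Sym2.mem_iff_exists.1 hwe
        rw [SimpleGraph.mem_edgeSet] at he
        by_cases hu : u ∈ R
        · right
          exact ⟨u, ⟨hu, he⟩, rfl⟩
        · by_cases huc : u = c
          · left
            rw [huc]
            exact Sym2.eq_swap
          · exfalso
            exact no_triangle hac hcv he (hstar u hu huc)
      have h4 := Set.ncard_le_ncard h3 (Set.toFinite _)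
      have h5 := Set.ncard_insert_le s(c, v) I
      rw [hIc] at h5
      exact_mod_cast h4.trans h5
    linarith
  · -- upper bound
    have hne : (Rᶜ \ {v} : Set V).Nonempty := ⟨c, hc, fun h => hvc (by
      rw [Set.mem_singleton_iff] at h
      exact h.symm)⟩
    have h1 := hbal (Rᶜ \ {v}) hne Set.diff_subset
    have hm1 : (0 : ℝ) < ((Rᶜ \ {v} : Set V).ncard : ℝ) := by
      exact_mod_cast (Set.ncard_pos (Set.toFinite _)).2 hne
    have hm : ((Rᶜ : Set V).ncard : ℝ) = ((Rᶜ \ {v} : Set V).ncard : ℝ) + 1 := by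
      have := Set.ncard_diff_singleton_add_one (s := Rᶜ) (a := v) hv (Set.toFinite _)
      exact_mod_cast this.symm
    unfold dens at h1 ⊢
    set E : Set (Sym2 V) := {e | e ∈ T.edgeSet ∧ ∃ w ∈ Rᶜ, w ∈ e} with hE
    set A : Set (Sym2 V) := {e | e ∈ T.edgeSet ∧ ∃ w ∈ Rᶜ \ {v}, w ∈ e} with hA
    have hsub : A ∪ I ⊆ E := by
      rintro e (⟨he, w, hw, hwe⟩ | ⟨u, ⟨hu, hadj⟩, rfl⟩)
      · exact ⟨he, w, hw.1, hwe⟩
      · exact ⟨hadj, v, hv, Sym2.mem_mk_left v u⟩
    have hdisj : Disjoint A I := by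
      rw [Set.disjoint_left]
      rintro e ⟨he, w, hw, hwe⟩ ⟨u, ⟨hu, hadj⟩, rfl⟩
      rcases Sym2.mem_iff.1 hwe with h | h
      · exact hw.2 h
      · rw [h] at hw
        exact hw.1 hu
    have hcount : (A.ncard : ℝ) + (rdeg T R v : ℝ) ≤ (E.ncard : ℝ) := by
      have h2 := Set.ncard_le_ncard hsub (Set.toFinite _)
      rw [Set.ncard_union_eq hdisj (Set.toFinite _) (Set.toFinite _), hIc] at h2
      exact_mod_cast h2
    rw [hm] at h1 ⊢
    set m : ℝ := ((Rᶜ \ {v} : Set V).ncard : ℝ) with hmdef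
    have hm2 : (0 : ℝ) < m + 1 := by linarith
    rw [div_le_div_iff₀ hm2 hm1] at h1
    rw [le_div_iff₀ hm2]
    nlinarith

end Pool.Agent.W237.BC
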